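import Pool.Agent.Y503.RB.Def3

set_option autoImplicit false
set_option linter.unusedSectionVars false

/-! Project RB, third part: noncritical points and nondegenerate maxima. -/

namespace Pool.Agent.Y339.RB.NCR

open Pool.Agent.Y503.RB
open scoped ContDiff RealInnerProductSpace Topology
open Set Metric Filter

section gen

variable {E F : Type} [NormedAddCommGroup E] [NormedSpace ℝ E] [NormedAddCommGroup F]
  [NormedSpace ℝ F]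

lemma cd_fderiv {f : E → F} {x : E} (h : ContDiffAt ℝ ∞ f x) : ContDiffAt ℝ ∞ (fderiv ℝ f) x :=
  h.fderiv_right (m := ∞) (by simp)

lemma diff_near {f : E → F} {x : E} (h : ContDiffAt ℝ ∞ f x) :
    ∀ᶠ y in 𝓝 x, DifferentiableAt ℝ f y := by
  have h1 : ContDiffAt ℝ 1 f x := h.of_le (by simp)
  have h2 := h1.eventually (by simp)
  filter_upwards [h2] with y hy
  exact hy.differentiableAt (by simp)

end gen

lemma ev_sub {G : Type} [NormedAddCommGroup G] {f : ℂ → G} {z₀ : ℂ} (h : ContinuousAt f z₀)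
    {c : ℝ} (hc : 0 < c) : ∀ᶠ z in 𝓝 z₀, ‖f z - f z₀‖ < c := by
  have h1 : ContinuousAt (fun z => ‖f z - f z₀‖) z₀ := (h.sub continuousAt_const).norm
  exact h1.eventually (gt_mem_nhds (by simpa using hc))

lemma ev_norm {G : Type} [NormedAddCommGroup G] {f : ℂ → G} {z₀ : ℂ} (h : ContinuousAt f z₀)
    {C : ℝ} (hC : ‖f z₀‖ < C) : ∀ᶠ z in 𝓝 z₀, ‖f z‖ < C := by
  have h1 : ContinuousAt (fun z => ‖f z‖) z₀ := h.norm
  exact h1.eventually (gt_mem_nhds hC)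

lemma d2_eq {σ : ℂ → E4} {z : ℂ} (h : DifferentiableAt ℝ (fderiv ℝ σ) z) (u v : ℂ) :
    d2 σ u v z = fderiv ℝ (fderiv ℝ σ) z u v := by
  unfold d2
  have h1 := (h.hasFDerivAt.clm_apply (hasFDerivAt_const v z)).fderiv
  rw [h1]
  simp

/-- the vector in the kernel of a linear form -/
noncomputable def kv (A : ℂ →L[ℝ] ℝ) : ℂ := (A Complex.I : ℝ) • (1 : ℂ) - (A 1 : ℝ) • Complex.I

lemma kv_ker (A : ℂ →L[ℝ] ℝ) : A (kv A) = 0 := by
  unfold kv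
  rw [map_sub, map_smul, map_smul, smul_eq_mul, smul_eq_mul]
  ring

lemma kv_re (A : ℂ →L[ℝ] ℝ) : (kv A).re = A Complex.I := by simp [kv]

lemma kv_im (A : ℂ →L[ℝ] ℝ) : (kv A).im = -A 1 := by simp [kv]

lemma ext_lin {A : ℂ →L[ℝ] ℝ} (h1 : A 1 = 0) (h2 : A Complex.I = 0) : A = 0 := by
  ext z
  have : z = (z.re : ℝ) • (1 : ℂ) + (z.im : ℝ) • Complex.I := by
    apply Complex.ext <;> simp
  rw [this, map_add, map_smul, map_smul, h1, h2]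
  simp

lemma kv_ne {A : ℂ →L[ℝ] ℝ} (h : A ≠ 0) : kv A ≠ 0 := by
  intro h0
  apply h
  refine ext_lin ?_ ?_
  · have := kv_im A
    rw [h0] at this
    simpa using this.symm
  · have := kv_re A
    rw [h0] at this
    simpa using this.symm

lemma exists_unit (A : ℂ →L[ℝ] ℝ) : ∃ v : ℂ, ‖v‖ = 1 ∧ A v = 0 := by
  by_cases h : A = 0
  · exact ⟨1, by simp, by rw [h]; rfl⟩
  · refine ⟨(‖kv A‖⁻¹ : ℝ) • kv A, ?_, ?_⟩
    · rw [norm_smul, norm_inv, norm_norm]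
      exact inv_mul_cancel₀ (norm_ne_zero_iff.2 (kv_ne h))
    · rw [map_smul, kv_ker, smul_zero]

theorem ncr : St_NCR := by
  intro q σ z₀ hq hσ hq0 hσ0
  have cA : ContinuousAt (fderiv ℝ q) z₀ := (cd_fderiv hq).continuousAt
  have cB : ContinuousAt (fderiv ℝ (fderiv ℝ q)) z₀ := (cd_fderiv (cd_fderiv hq)).continuousAt
  have cS : ContinuousAt (fderiv ℝ σ) z₀ := (cd_fderiv hσ).continuousAt
  have cT : ContinuousAt (fderiv ℝ (fderiv ℝ σ)) z₀ := (cd_fderiv (cd_fderiv hσ)).continuousAt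
  have hd := diff_near (cd_fderiv hσ)
  -- the vector
  set v : ℂ → ℂ := fun z => kv (fderiv ℝ q z) with hv
  have cAu : ∀ u : ℂ, ContinuousAt (fun z => fderiv ℝ q z u) z₀ := fun u =>
    cA.clm_apply continuousAt_const
  have cv : ContinuousAt v z₀ := by
    simp only [hv, kv]
    exact ((cAu Complex.I).smul continuousAt_const).sub ((cAu 1).smul continuousAt_const)
  have hv0 : v z₀ ≠ 0 := kv_ne hq0
  have hs0 : 0 < ‖fderiv ℝ σ z₀ (v z₀)‖ := norm_pos_iff.2 (hσ0 _ hv0 (kv_ker _))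
  have cs : ContinuousAt (fun z => ‖fderiv ℝ σ z (v z)‖) z₀ := (cS.clm_apply cv).norm
  have ct : ContinuousAt (fun z => ‖fderiv ℝ (fderiv ℝ σ) z (v z) (v z)‖) z₀ :=
    ((cT.clm_apply cv).clm_apply cv).norm
  have cb : ContinuousAt (fun z => |fderiv ℝ (fderiv ℝ q) z (v z) (v z)|) z₀ :=
    ((cB.clm_apply cv).clm_apply cv).abs
  obtain ⟨u, hu⟩ : ∃ u : ℂ, fderiv ℝ q z₀ u ≠ 0 := by
    by_contra hc
    push Not at hc
    exact hq0 (ContinuousLinearMap.ext hc)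
  have ca : ContinuousAt (fun z => |fderiv ℝ q z u|) z₀ := (cAu u).abs
  have csu : ContinuousAt (fun z => ‖fderiv ℝ σ z u‖) z₀ := (cS.clm_apply continuousAt_const).norm
  -- constants
  set c : ℝ := ‖fderiv ℝ σ z₀ (v z₀)‖ / 2 with hc
  set C1 : ℝ := ‖fderiv ℝ (fderiv ℝ σ) z₀ (v z₀) (v z₀)‖ + 1 with hC1
  set C2 : ℝ := |fderiv ℝ (fderiv ℝ q) z₀ (v z₀) (v z₀)| + 1 with hC2
  set c2 : ℝ := |fderiv ℝ q z₀ u| / 2 with hc2
  set C3 : ℝ := ‖fderiv ℝ σ z₀ u‖ + 1 with hC3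
  have c_pos : 0 < c := by positivity
  have C1_pos : 0 < C1 := by positivity
  have C2_pos : 0 < C2 := by positivity
  have C3_pos : 0 < C3 := by positivity
  have c2_pos : 0 < c2 := by
    have : 0 < |fderiv ℝ q z₀ u| := abs_pos.2 hu
    positivity
  have e1 : ∀ᶠ z in 𝓝 z₀, c < ‖fderiv ℝ σ z (v z)‖ := cs.eventually (lt_mem_nhds (by
    show c < ‖fderiv ℝ σ z₀ (v z₀)‖
    rw [hc]; linarith))
  have e2 : ∀ᶠ z in 𝓝 z₀, ‖fderiv ℝ (fderiv ℝ σ) z (v z) (v z)‖ < C1 :=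
    ct.eventually (gt_mem_nhds (by
      show ‖fderiv ℝ (fderiv ℝ σ) z₀ (v z₀) (v z₀)‖ < C1
      rw [hC1]; linarith))
  have e3 : ∀ᶠ z in 𝓝 z₀, |fderiv ℝ (fderiv ℝ q) z (v z) (v z)| < C2 :=
    cb.eventually (gt_mem_nhds (by
      show |fderiv ℝ (fderiv ℝ q) z₀ (v z₀) (v z₀)| < C2
      rw [hC2]; linarith))
  have e4 : ∀ᶠ z in 𝓝 z₀, c2 < |fderiv ℝ q z u| := ca.eventually (lt_mem_nhds (by
    show c2 < |fderiv ℝ q z₀ u|
    have : 0 < |fderiv ℝ q z₀ u| := abs_pos.2 hu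
    rw [hc2]; linarith))
  have e5 : ∀ᶠ z in 𝓝 z₀, ‖fderiv ℝ σ z u‖ < C3 := csu.eventually (gt_mem_nhds (by
    show ‖fderiv ℝ σ z₀ u‖ < C3
    rw [hC3]; linarith))
  obtain ⟨ε, hε, hball⟩ := Metric.eventually_nhds_iff_ball.1
    (hd.and (e1.and (e2.and (e3.and (e4.and e5)))))
  set M : ℝ := (C2 * C3 / c2 + C1) / c ^ 2 with hM
  have M_pos : 0 < M := by positivity
  refine ⟨min ε (c2 / (2 * C3 * (M + 1))), lt_min hε (by positivity), ?_⟩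
  intro z hz κ hκ k w hw hA
  obtain ⟨g0, g1, g2, g3, g4, g5⟩ := hball z (ball_subset_ball (min_le_left _ _) hz)
  have κ_pos : 0 < κ := hκ.1
  have hκ2 : κ < c2 / (2 * C3 * (M + 1)) := lt_of_lt_of_le hκ.2 (min_le_right _ _)
  rw [lt_div_iff₀ (by positivity)] at hκ2
  have hw0 : 0 < w := by linarith
  have h1 : c2 < 2 * κ * C3 * w := by
    have h2 := hA u
    have h3 : 2 * κ * ‖d1 σ u z‖ * w ≤ 2 * κ * C3 * w := by
      have : ‖d1 σ u z‖ ≤ C3 := g5.le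
      gcongr
    linarith
  have hwM : M + 1 < w := by
    have h2 : 2 * κ * C3 * (M + 1) < 2 * κ * C3 * w := by nlinarith
    exact lt_of_mul_lt_mul_left h2 (by positivity)
  refine ⟨v z, ?_⟩
  have h4 : fderiv ℝ q z (v z) = 0 := kv_ker _
  have h5 : d2 σ (v z) (v z) z = fderiv ℝ (fderiv ℝ σ) z (v z) (v z) := d2_eq g0 _ _
  have h6 : c < ‖d1 σ (v z) z‖ := g1
  rw [h4, h5]
  have h7 : fderiv ℝ (fderiv ℝ q) z (v z) (v z) / κ < 2 * C2 * C3 * w / c2 := by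
    rw [div_lt_div_iff₀ κ_pos c2_pos]
    have h8 : fderiv ℝ (fderiv ℝ q) z (v z) (v z) ≤ C2 := (le_abs_self _).trans g3.le
    calc fderiv ℝ (fderiv ℝ q) z (v z) (v z) * c2 ≤ C2 * c2 :=
          mul_le_mul_of_nonneg_right h8 c2_pos.le
      _ < C2 * (2 * κ * C3 * w) := mul_lt_mul_of_pos_left h1 C2_pos
      _ = 2 * C2 * C3 * w * κ := by ring
  have h9 : c ^ 2 ≤ ‖d1 σ (v z) z‖ ^ 2 := pow_le_pow_left₀ c_pos.le h6.le 2
  have h10 : 2 * c ^ 2 * w ^ 2 ≤ 2 * ‖d1 σ (v z) z‖ ^ 2 * w ^ 2 := by gcongr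
  have h11 : 2 * ‖fderiv ℝ (fderiv ℝ σ) z (v z) (v z)‖ * w ≤ 2 * C1 * w := by gcongr
  have h12 : 2 * C2 * C3 * w / c2 ≤ 2 * c ^ 2 * w ^ 2 - 2 * C1 * w := by
    have h13 : M * c ^ 2 = C2 * C3 / c2 + C1 := by rw [hM]; field_simp
    have h14 : M * c ^ 2 ≤ w * c ^ 2 := by
      have : M ≤ w := by linarith
      gcongr
    have h15 : 2 * C2 * C3 * w / c2 = 2 * w * (C2 * C3 / c2) := by ring
    rw [h15]
    have h16 : C2 * C3 / c2 ≤ w * c ^ 2 - C1 := by linarith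
    have h17 : 2 * w * (C2 * C3 / c2) ≤ 2 * w * (w * c ^ 2 - C1) :=
      mul_le_mul_of_nonneg_left h16 (by positivity)
    calc 2 * w * (C2 * C3 / c2) ≤ 2 * w * (w * c ^ 2 - C1) := h17
      _ = 2 * c ^ 2 * w ^ 2 - 2 * C1 * w := by ring
  have h18 : (1 - k) * (0 : ℝ) ^ 2 / κ ^ 2 = 0 := by simp
  rw [h18]
  linarith

theorem mxq : St_MXQ := by
  intro q σ z₀ hq hσ hinj hneg
  have cB : ContinuousAt (fderiv ℝ (fderiv ℝ q)) z₀ := (cd_fderiv (cd_fderiv hq)).continuousAt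
  have cS : ContinuousAt (fderiv ℝ σ) z₀ := (cd_fderiv hσ).continuousAt
  have cT : ContinuousAt (fderiv ℝ (fderiv ℝ σ)) z₀ := (cd_fderiv (cd_fderiv hσ)).continuousAt
  have hd := diff_near (cd_fderiv hσ)
  have hcomp : IsCompact (sphere (0 : ℂ) 1) := isCompact_sphere 0 1
  have hne : (sphere (0 : ℂ) 1).Nonempty := ⟨1, by simp⟩
  obtain ⟨v1, hv1, hmax⟩ := hcomp.exists_isMaxOn hne
    (f := fun v => fderiv ℝ (fderiv ℝ q) z₀ v v) (by fun_prop)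
  obtain ⟨v2, hv2, hmin⟩ := hcomp.exists_isMinOn hne
    (f := fun v => ‖fderiv ℝ σ z₀ v‖) (by fun_prop)
  have nz : ∀ v ∈ sphere (0 : ℂ) 1, v ≠ 0 := by
    rintro v hv rfl
    simp at hv
  have h1 : fderiv ℝ (fderiv ℝ q) z₀ v1 v1 < 0 := hneg v1 (nz v1 hv1)
  have h2 : 0 < ‖fderiv ℝ σ z₀ v2‖ := by
    rw [norm_pos_iff]
    intro h
    exact nz v2 hv2 (hinj (by rw [h, map_zero]))
  set c : ℝ := min (-(fderiv ℝ (fderiv ℝ q) z₀ v1 v1)) ‖fderiv ℝ σ z₀ v2‖ / 2 with hc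
  have c_pos : 0 < c := by
    have : 0 < min (-(fderiv ℝ (fderiv ℝ q) z₀ v1 v1)) ‖fderiv ℝ σ z₀ v2‖ :=
      lt_min (by linarith) h2
    positivity
  have hc1 : 2 * c ≤ -(fderiv ℝ (fderiv ℝ q) z₀ v1 v1) := by
    rw [hc]
    have := min_le_left (-(fderiv ℝ (fderiv ℝ q) z₀ v1 v1)) ‖fderiv ℝ σ z₀ v2‖
    linarith
  have hc2 : 2 * c ≤ ‖fderiv ℝ σ z₀ v2‖ := by
    rw [hc]
    have := min_le_right (-(fderiv ℝ (fderiv ℝ q) z₀ v1 v1)) ‖fderiv ℝ σ z₀ v2‖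
    linarith
  set C : ℝ := ‖fderiv ℝ (fderiv ℝ σ) z₀‖ + 1 with hC
  have C_pos : 0 < C := by positivity
  have e1 : ∀ᶠ z in 𝓝 z₀, ‖fderiv ℝ (fderiv ℝ q) z - fderiv ℝ (fderiv ℝ q) z₀‖ < c :=
    ev_sub (cd_fderiv (cd_fderiv hq)).continuousAt c_pos
  have e2 : ∀ᶠ z in 𝓝 z₀, ‖fderiv ℝ σ z - fderiv ℝ σ z₀‖ < c :=
    ev_sub (cd_fderiv hσ).continuousAt c_pos
  have e3 : ∀ᶠ z in 𝓝 z₀, ‖fderiv ℝ (fderiv ℝ σ) z‖ < C :=
    ev_norm (cd_fderiv (cd_fderiv hσ)).continuousAt (by rw [hC]; linarith)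
  obtain ⟨ε, hε, hball⟩ := Metric.eventually_nhds_iff_ball.1 (hd.and (e1.and (e2.and e3)))
  refine ⟨min ε (c ^ 3 / (C ^ 2 + 1)), lt_min hε (by positivity), ?_⟩
  intro z hz κ hκ k w hw _
  obtain ⟨g0, g1, g2, g3⟩ := hball z (ball_subset_ball (min_le_left _ _) hz)
  have κ_pos : 0 < κ := hκ.1
  have hκ2 : κ < c ^ 3 / (C ^ 2 + 1) := lt_of_lt_of_le hκ.2 (min_le_right _ _)
  rw [lt_div_iff₀ (by positivity)] at hκ2
  obtain ⟨v, hv, hAv⟩ := exists_unit (fderiv ℝ q z)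
  have hvs : v ∈ sphere (0 : ℂ) 1 := by simpa using hv
  have hw0 : 0 < w := by linarith
  -- second derivative of `q`
  have k1 : fderiv ℝ (fderiv ℝ q) z v v ≤ -c := by
    have a1 : fderiv ℝ (fderiv ℝ q) z₀ v v ≤ fderiv ℝ (fderiv ℝ q) z₀ v1 v1 := hmax hvs
    have a2 : |(fderiv ℝ (fderiv ℝ q) z - fderiv ℝ (fderiv ℝ q) z₀) v v| ≤ c := by
      have := (fderiv ℝ (fderiv ℝ q) z - fderiv ℝ (fderiv ℝ q) z₀).le_opNorm₂ v v
      rw [hv, mul_one, mul_one, Real.norm_eq_abs] at this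
      exact this.trans g1.le
    have a3 : (fderiv ℝ (fderiv ℝ q) z - fderiv ℝ (fderiv ℝ q) z₀) v v =
        fderiv ℝ (fderiv ℝ q) z v v - fderiv ℝ (fderiv ℝ q) z₀ v v := by simp
    rw [a3, abs_le] at a2
    linarith [a2.2]
  have k2 : c ≤ ‖d1 σ v z‖ := by
    have a1 : ‖fderiv ℝ σ z₀ v2‖ ≤ ‖fderiv ℝ σ z₀ v‖ := hmin hvs
    have a2 : ‖(fderiv ℝ σ z - fderiv ℝ σ z₀) v‖ ≤ c := by
      have := (fderiv ℝ σ z - fderiv ℝ σ z₀).le_opNorm v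
      rw [hv, mul_one] at this
      exact this.trans g2.le
    have a3 : fderiv ℝ σ z₀ v = fderiv ℝ σ z v - (fderiv ℝ σ z - fderiv ℝ σ z₀) v := by simp
    have a4 : ‖fderiv ℝ σ z₀ v‖ ≤ ‖fderiv ℝ σ z v‖ + ‖(fderiv ℝ σ z - fderiv ℝ σ z₀) v‖ := by
      rw [a3]
      refine (norm_sub_le _ _).trans ?_
      simp
    have a5 : ‖d1 σ v z‖ = ‖fderiv ℝ σ z v‖ := rfl
    rw [a5]
    linarith
  have k3 : ‖d2 σ v v z‖ ≤ C := by
    rw [d2_eq g0]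
    have := (fderiv ℝ (fderiv ℝ σ) z).le_opNorm₂ v v
    rw [hv, mul_one, mul_one] at this
    exact this.trans g3.le
  refine ⟨v, ?_⟩
  rw [hAv]
  have h18 : (1 - k) * (0 : ℝ) ^ 2 / κ ^ 2 = 0 := by simp
  rw [h18, add_zero]
  have k4 : fderiv ℝ (fderiv ℝ q) z v v / κ ≤ -c / κ := div_le_div_of_nonneg_right k1 κ_pos.le
  have k5 : 2 * c ^ 2 * w ^ 2 ≤ 2 * ‖d1 σ v z‖ ^ 2 * w ^ 2 := by gcongr
  have k6 : 2 * ‖d2 σ v v z‖ * w ≤ 2 * C * w := by gcongr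
  have k7 : (C ^ 2 + 1) / c ^ 2 < c / κ := by
    rw [div_lt_div_iff₀ (by positivity) κ_pos]
    nlinarith
  have k8 : 0 ≤ 2 * c ^ 2 * w ^ 2 - 2 * C * w + C ^ 2 / (2 * c ^ 2) := by
    have : 2 * c ^ 2 * w ^ 2 - 2 * C * w + C ^ 2 / (2 * c ^ 2) =
        2 * c ^ 2 * (w - C / (2 * c ^ 2)) ^ 2 := by
      field_simp; ring
    rw [this]
    positivity
  have k9 : C ^ 2 / (2 * c ^ 2) < (C ^ 2 + 1) / c ^ 2 := by
    rw [div_lt_div_iff₀ (by positivity) (by positivity)]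
    nlinarith [sq_nonneg C, pow_pos c_pos 2, mul_nonneg (sq_nonneg C) (sq_nonneg c)]
  have k10 : -c / κ = -(c / κ) := by ring
  rw [k10] at k4
  linarith

end Pool.Agent.Y339.RB.NCR
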